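import Mathlib
import Pool.Agent.W923.BI.Universal

set_option autoImplicit false

open Pool.Agent.W923.BI

namespace Pool.Agent.Results.MP_389802_lc.BorelGraphIsoSigma12

/-- Let `X` be an uncountable standard Borel space and `U 0, U 1, ...` a sequence of sets which
generates the Borel `σ`-algebra of `X × X`.  The set `IsoCodes U` of all pairs of Borel codes
(with respect to `U`) of Borel isomorphic Borel graphs on `X` is `Σ¹₂`; every `Σ¹₂` subset of a
standard Borel space is Borel reducible to it, by a reduction whose values are pairs of codes of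
Borel graphs all of whose components are stars; and it does not agree with any `Π¹₂` set on
the pairs of codes of such graphs.  So `Σ¹₂` is the least projective class containing the relation
of Borel isomorphism, and the relation is complete for this class. -/
theorem result (X : Type) [MeasurableSpace X] [StandardBorelSpace X] (hX : ¬ Countable X)
    (U : ℕ → Set (X × X))
    (hU : (inferInstance : MeasurableSpace (X × X)) =
      MeasurableSpace.generateFrom (Set.range U)) :
    IsSigma12 (IsoCodes U) ∧
    (∀ (S : Type) [MeasurableSpace S] [StandardBorelSpace S] (A : Set S), IsSigma12 A →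
      ∃ φ : S → (ℕ → ℕ) × (ℕ → ℕ), Measurable φ ∧
        (∀ s, ∃ G H : SimpleGraph X, StarForest G ∧ StarForest H ∧
          CodesGraph U (φ s).1 G ∧ CodesGraph U (φ s).2 H) ∧
        ∀ s, s ∈ A ↔ φ s ∈ IsoCodes U) ∧
    ¬ ∃ N : Set ((ℕ → ℕ) × (ℕ → ℕ)), IsSigma12 N ∧ ∀ p, (∃ G H : SimpleGraph X,
      StarForest G ∧ StarForest H ∧ CodesGraph U p.1 G ∧ CodesGraph U p.2 H) →
        (p ∈ N ↔ p ∉ IsoCodes U) := by
  refine ⟨upper hX fun k => ?_, fun S _ _ A hA => hard hX U hU hA, not_pi12 hX U hU⟩
  have h : ∀ m : MeasurableSpace (X × X), m = MeasurableSpace.generateFrom (Set.range U) →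
      @MeasurableSet _ m (U k) := by
    rintro _ rfl
    exact MeasurableSpace.measurableSet_generateFrom ⟨k, rfl⟩
  exact h _ hU

end Pool.Agent.Results.MP_389802_lc.BorelGraphIsoSigma12
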